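import Mathlib
import Pool.Agent.Q288.PCF.Race
import Pool.Agent.Q288.PCF.Upper2

/-! # Percolation with constant freezing is not stochastically monotone in the freezing rate -/

open Filter Topology Matrix
open scoped Classical

set_option linter.unusedSectionVars false
set_option linter.unusedVariables false

namespace Pool.Agent.Results.MP_959d67_pr.NotMonotone

open Pool.Agent.Q288 Pool.Agent.Q288.PCF

/-- `μ` is stochastically dominated by `ν` (an edge configuration is identified with its set of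
open edges). -/
def StLE {V : Type} [Fintype V] [DecidableEq V] (μ ν : Finset (Sym2 V) → ℝ) : Prop :=
  ∀ A : Set (Finset (Sym2 V)), IsUpperSet A → prob μ A ≤ prob ν A

theorem prob_compl {V : Type} [Fintype V] [DecidableEq V] {μ : Finset (Sym2 V) → ℝ}
    (A : Set (Finset (Sym2 V))) : prob μ Aᶜ + prob μ A = prob μ Set.univ := by
  unfold prob
  rw [← Finset.sum_add_distrib]
  apply Finset.sum_congr rfl
  intro O _
  by_cases h : O ∈ A
  · rw [if_pos h, if_neg (fun h' => h' h), if_pos (Set.mem_univ _), zero_add]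
  · rw [if_neg h, if_pos (Set.mem_compl h), if_pos (Set.mem_univ _), add_zero]

theorem card_NV (k s : ℕ) : Fintype.card (NV k s) = k + 1 + (k * s + 2) := by
  have : Fintype.card (NV k s) = Fintype.card (Fin (k + 1) ⊕ ((Fin k × Fin s) ⊕ Bool)) := rfl
  rw [this]
  simp

/-- The numerical comparison. -/
theorem compare {k : ℕ} (hk : k = 2 ^ 80) {α β : ℝ} (hα : α = (1 / 2) ^ 88)
    (hβ : β = (1 / 2) ^ 48) {μ ν : Finset (Sym2 (NV k 200)) → ℝ}
    (hμ : IsFinalLaw (necklace k 200) α μ) (hν : IsFinalLaw (necklace k 200) β ν) :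
    prob ν (endsClosed k 200) < prob μ (endsClosed k 200) := by
  have hα0 : 0 < α := by rw [hα]; positivity
  have hβ0 : 0 < β := by rw [hβ]; positivity
  have hk0 : 0 < k := by rw [hk]; positivity
  have hkr : (k : ℝ) = 2 ^ 80 := by rw [hk]; norm_num
  have hlow := lower_bound (k := k) (s := 200) hα0 (Real.log_nonneg (by norm_num : (1 : ℝ) ≤ 2)) hμ
  have hup := upper_bound (k := k) (s := 200) hβ0 (by norm_num) hk0 hν
  -- lower bound
  have h1 : Real.exp (-Real.log 2) = 1 / 2 := by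
    rw [Real.exp_neg, Real.exp_log (by norm_num)]; norm_num
  rw [h1] at hlow
  have h2 : (1 / 8 : ℝ) ≤ Real.exp (-(2 + α * Fintype.card (NV k 200)) * Real.log 2) := by
    have h3 : α * Fintype.card (NV k 200) ≤ 1 := by
      rw [card_NV]
      push_cast
      rw [hkr, hα]
      norm_num
    have h4 : (1 / 8 : ℝ) = Real.exp (-3 * Real.log 2) := by
      rw [show (-3 : ℝ) * Real.log 2 = -(Real.log 2 + Real.log 2 + Real.log 2) by ring,
        Real.exp_neg, Real.exp_add, Real.exp_add, Real.exp_log (by norm_num)]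
      norm_num
    rw [h4]
    apply Real.exp_le_exp.mpr
    have := Real.log_nonneg (by norm_num : (1 : ℝ) ≤ 2)
    nlinarith
  have h5 : (1 / 2 : ℝ) ≤ (1 - (1 - (1 - 1 / 2) ^ 2) ^ 200) ^ k := by
    have hb : (1 : ℝ) + (k : ℝ) * (-((3 / 4 : ℝ) ^ 200)) ≤ (1 + (-((3 / 4 : ℝ) ^ 200))) ^ k := by
      apply one_add_mul_le_pow
      norm_num
    have e : (1 - (1 - (1 - 1 / 2) ^ 2) ^ 200 : ℝ) = 1 + (-((3 / 4 : ℝ) ^ 200)) := by norm_num
    rw [e]
    refine le_trans ?_ hb
    rw [hkr]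
    norm_num
  have h6 : α / 48 ≤ prob μ (endsClosed k 200) := by
    refine le_trans ?_ hlow
    have hα1 : α ≤ 1 := by rw [hα]; norm_num
    have h7 : α / 3 ≤ α / (α + 2) := by
      apply div_le_div_of_nonneg_left hα0.le (by positivity)
      linarith
    calc α / 48 = α / 3 * (1 / 8) * (1 / 2) := by ring
      _ ≤ α / (α + 2) * Real.exp (-(2 + α * Fintype.card (NV k 200)) * Real.log 2) *
          (1 - (1 - (1 - 1 / 2) ^ 2) ^ 200) ^ k := by
        apply mul_le_mul _ h5 (by norm_num) (by positivity)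
        exact mul_le_mul h7 h2 (by norm_num) (by positivity)
  -- upper bound
  have hx0 : (0 : ℝ) ≤ 2 * (200 : ℕ) / (β + 2 * (200 : ℕ)) := by positivity
  have hx1 : 2 * ((200 : ℕ) : ℝ) / (β + 2 * (200 : ℕ)) ≤ 1 := by
    rw [div_le_one (by positivity)]; linarith
  obtain ⟨M, hM⟩ : ∃ M : ℕ, M = 400 * 2 ^ 48 := ⟨_, rfl⟩
  have hMr : (M : ℝ) = 400 * 2 ^ 48 := by rw [hM]; norm_num
  have h8 : (2 * ((200 : ℕ) : ℝ) / (β + 2 * (200 : ℕ))) ^ M ≤ 1 / 2 := by
    have hb : (1 : ℝ) + (M : ℝ) * (β / 400) ≤ (1 + β / 400) ^ M := by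
      apply one_add_mul_le_pow
      linarith [div_nonneg hβ0.le (by norm_num : (0 : ℝ) ≤ 400)]
    have h9 : (M : ℝ) * (β / 400) = 1 := by
      rw [hMr, hβ]; norm_num
    rw [h9] at hb
    have e : 2 * ((200 : ℕ) : ℝ) / (β + 2 * (200 : ℕ)) = (1 + β / 400)⁻¹ := by
      push_cast
      field_simp
      ring
    rw [e, inv_pow]
    rw [inv_le_comm₀ (by positivity) (by norm_num)]
    linarith
  have h10 : (2 * ((200 : ℕ) : ℝ) / (β + 2 * (200 : ℕ))) ^ (k - 1) ≤ (1 / 2) ^ 100 := by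
    have hle : M * 100 ≤ k - 1 := by rw [hM, hk]; norm_num
    calc (2 * ((200 : ℕ) : ℝ) / (β + 2 * (200 : ℕ))) ^ (k - 1)
        ≤ (2 * ((200 : ℕ) : ℝ) / (β + 2 * (200 : ℕ))) ^ (M * 100) :=
          pow_le_pow_of_le_one hx0 hx1 hle
      _ = ((2 * ((200 : ℕ) : ℝ) / (β + 2 * (200 : ℕ))) ^ M) ^ 100 := by rw [pow_mul]
      _ ≤ (1 / 2) ^ 100 := pow_le_pow_left₀ (pow_nonneg hx0 _) h8 100
  have h11 : (2 * β / (2 * β + 1)) ^ 2 ≤ (2 * β) ^ 2 := by
    apply pow_le_pow_left₀ (by positivity)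
    rw [div_le_iff₀ (by positivity)]
    nlinarith
  have h12 : (1 / 2 : ℝ) ^ 100 + (2 * β) ^ 2 < α / 48 := by
    rw [hα, hβ]; norm_num
  linarith

/-- Percolation with constant freezing is not stochastically monotone in the freezing rate: there
are a finite graph and freezing rates `0 < α < β` such that the final law at rate `β` is not
dominated by the final law at rate `α`; some increasing event has a strictly larger probability
at the larger freezing rate. -/
theorem result : ∃ (V : Type) (_ : Fintype V) (_ : DecidableEq V) (G : SimpleGraph V) (α β : ℝ),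
    0 < α ∧ α < β ∧ ∃ μ ν : Finset (Sym2 V) → ℝ, IsFinalLaw G α μ ∧ IsFinalLaw G β ν ∧
      (∃ A : Set (Finset (Sym2 V)), IsUpperSet A ∧ prob μ A < prob ν A) ∧ ¬ StLE ν μ := by
  obtain ⟨k, hk⟩ : ∃ k : ℕ, k = 2 ^ 80 := ⟨_, rfl⟩
  obtain ⟨α, hα⟩ : ∃ α : ℝ, α = (1 / 2) ^ 88 := ⟨_, rfl⟩
  obtain ⟨β, hβ⟩ : ∃ β : ℝ, β = (1 / 2) ^ 48 := ⟨_, rfl⟩
  have hα0 : 0 < α := by rw [hα]; positivity
  have hβ0 : 0 < β := by rw [hβ]; positivity
  obtain ⟨μ, hμ⟩ := exists_finalLaw (necklace k 200) hα0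
  obtain ⟨ν, hν⟩ := exists_finalLaw (necklace k 200) hβ0
  have hlt := compare hk hα hβ hμ hν
  have h1 := prob_compl (μ := μ) (endsClosed k 200)
  have h2 := prob_compl (μ := ν) (endsClosed k 200)
  rw [prob_univ hα0 hμ] at h1
  rw [prob_univ hβ0 hν] at h2
  have hlt' : prob μ (endsClosed k 200)ᶜ < prob ν (endsClosed k 200)ᶜ := by linarith
  refine ⟨NV k 200, inferInstance, inferInstance, necklace k 200, α, β, hα0, ?_, μ, ν, hμ, hν,
    ⟨_, endsClosed_compl_upper, hlt'⟩, fun h => ?_⟩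
  · rw [hα, hβ]; norm_num
  · exact absurd (h _ endsClosed_compl_upper) (not_le.mpr hlt')

end Pool.Agent.Results.MP_959d67_pr.NotMonotone
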